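import Pool.Agent.H946_AX.L3

/-!
# Ancient axisymmetric flows with swirl: inflow of recurrent type at large distances

Ancient axisymmetric solutions of the Navier-Stokes equations, bounded on the cylinders about the
axis, satisfy `|Γ| ≤ δ` if the inflow at large distances from the axis at the points with `|Γ| > δ`,
in the distant past, is at most the one for which the diffusion associated with the equation
`∂ₜ Γ + u_ρ ∂_ρ Γ + u_z ∂_z Γ = ν (∂_ρ² - (1 / ρ) ∂_ρ + ∂_z²) Γ` is recurrent. The condition is stated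
with a Lyapunov function `h` of `σ = ρ ^ 2`, unbounded at infinity; `h = log log σ` gives
`-ρ u_ρ ≤ (2 + 1 / log ρ) ν`. There is no condition on the axial velocity, on the outflow, or on the
inflow in any given cylinder about the axis.

`V = Fin 3 → ℝ` with the maximum norm. See the claim file for the definitions.
-/

open MeasureTheory Set Metric Filter Topology
open scoped ContDiff

namespace Pool.Agent.Results.MP_09540e_an.AncientRecurrentInflow

open H459R3.NS W221.NS Pool.Agent.TH305.AX Pool.Agent.H946.AX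

/-- Let `(u, p)` be a smooth axisymmetric ancient solution of the Navier-Stokes equations, on
`(-∞, 0) × ℝ³`, in the class `BSol` from each time on, `s ≤ 0`, and let, at the times `t < s`, `|Γ| ≤ M`
and `u` be bounded on each cylinder `{ρ² ≤ r}`; `Γ = circ (u t) x`, `ρ² = sg x`. Let `δ > 0` and let `h`
be a `C²` function on `(r₀, ∞)` with `h' > 0` and `h → ∞` at infinity. If
`2 ν ρ² h''(ρ²) ≤ ρ u_ρ h'(ρ²)` at all points with `ρ² > r₀` and `|Γ| > δ`, at the times `t < s`, then
`|Γ| ≤ δ` at all times `t < 0`. The same holds if, for some `R`, `-ρ u_ρ ≤ (2 + 1 / log ρ) ν` at all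
points with `ρ > R` and `|Γ| > δ`, at the times `t < s` (the case `h = log log`). -/
theorem result (ν : ℝ) (hν : 0 < ν) (u : ℝ → V → V) (p : ℝ → V → ℝ)
    (hsol : ∀ t₀ < 0, BSol ν (-t₀) (fun t => u (t₀ + t)) (fun t => p (t₀ + t)))
    (s M δ : ℝ) (hs : s ≤ 0) (hδ : 0 < δ) (hM : ∀ t < s, ∀ x, |circ (u t) x| ≤ M)
    (hloc : ∀ r : ℝ, ∃ U : ℝ, ∀ t < s, ∀ x, sg x ≤ r → ‖u t x‖ ≤ U)
    (hcond : (∃ (r₀ : ℝ) (h : ℝ → ℝ), ContDiffOn ℝ 2 h (Ioi r₀) ∧
        (∀ σ, r₀ < σ → 0 < deriv h σ) ∧ Tendsto h atTop atTop ∧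
        ∀ t < s, ∀ x, r₀ < sg x → δ < |circ (u t) x| →
          2 * ν * sg x * deriv (deriv h) (sg x)
            ≤ (x 0 * u t x 0 + x 1 * u t x 1) * deriv h (sg x)) ∨
      ∃ R : ℝ, ∀ t < s, ∀ x, R < √(sg x) → δ < |circ (u t) x| →
        -((2 + 1 / Real.log √(sg x)) * ν) ≤ x 0 * u t x 0 + x 1 * u t x 1) :
    ∀ t < 0, ∀ x, |circ (u t) x| ≤ δ := by
  rcases hcond with h | h
  · exact ancientR hν hsol hs hloc hM hδ h
  · exact ancientL hν hsol hs hloc hM hδ h

end Pool.Agent.Results.MP_09540e_an.AncientRecurrentInflow
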