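import Pool.Agent.H946_AX.L7

/-!
# Axisymmetric flows with swirl: the logarithmic modulus of the circulation and the threshold `2 ν`

Axisymmetric solutions of the Navier-Stokes equations with `|Γ| ≤ |log ρ| ^ (-α)`, `α > 1`, near the
axis are regular; `Γ = ρ u_θ` is the circulation. Here this bound (for all `α < κ`, near the axis) is
derived from a one-sided condition on the radial velocity alone, `κ > 1`:
`-ρ u_ρ ≤ (2 - (κ + 1) / log (1 / ρ)) ν + B(t) ρ² log (1 / ρ)`, with `B` integrable up to the time `T`.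
The coefficient of `ν` tends to `2` at the axis, the borderline value: for `-ρ u_ρ = 2 ν` the
associated diffusion is a Bessel process of dimension `2`, which does not reach the axis. The
condition is only needed at the points at which the conclusion fails with a constant `K`.

`V = Fin 3 → ℝ` with the maximum norm. See the claim file for the definitions.
-/

open MeasureTheory Set Metric Filter Topology
open scoped ContDiff

namespace Pool.Agent.Results.MP_09540e_an.LogarithmicInflow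

open H459R3.NS W221.NS Pool.Agent.TH305.AX Pool.Agent.H946.AX

/-- Let `(u, p)` be a smooth axisymmetric solution of the Navier-Stokes equations on `[0, T) × ℝ³`, `u`
bounded on `[0, T'] × ℝ³` for each `T' < T`, with `|Γ| ≤ M` at time `0`; `Γ = circ (u t) x` is the
circulation, `ρ = √(sg x)` the distance to the axis, `ρ u_ρ = x₀ u₀ + x₁ u₁`. Let `κ > 0`, `0 < ρ₀ < 1`,
`K ≥ 0`, and let `b` be a continuous function on `[0, T)` with `b(0) = 0` and `b' = B ≥ 0` on `(0, T)`. If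
`-ρ u_ρ ≤ (2 - (κ + 1) / log (1 / ρ)) ν + B(t) ρ² log (1 / ρ)` at all points with `0 < ρ < ρ₀` and
`|Γ| > K (log (1 / ρ)) ^ (-κ)`, then there is a constant `C` with
`|Γ| ≤ C exp (κ b(t)) (log (1 / ρ)) ^ (-κ)` at all points with `0 < ρ < ρ₀` and all times in
`[0, T)`. -/
theorem result (ν : ℝ) (hν : 0 < ν) (T : ℝ) (u : ℝ → V → V) (p : ℝ → V → ℝ) (h : BSol ν T u p)
    (κ ρ₀ K M : ℝ) (hκ : 0 < κ) (hρ : 0 < ρ₀) (hρ1 : ρ₀ < 1) (hK : 0 ≤ K) (b B : ℝ → ℝ)
    (hb0 : b 0 = 0) (hbc : ContinuousOn b (Ico 0 T))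
    (hb : ∀ t ∈ Ioo 0 T, HasDerivAt b (B t) t) (hB : ∀ t ∈ Ioo 0 T, 0 ≤ B t)
    (hM : ∀ x, |circ (u 0) x| ≤ M)
    (hcond : ∀ t ∈ Ioo 0 T, ∀ x, 0 < sg x → √(sg x) < ρ₀ →
      K * Real.log (1 / √(sg x)) ^ (-κ) < |circ (u t) x| →
      -((2 - (κ + 1) / Real.log (1 / √(sg x))) * ν) - B t * (sg x * Real.log (1 / √(sg x)))
        ≤ x 0 * u t x 0 + x 1 * u t x 1) :
    ∃ C : ℝ, 0 ≤ C ∧ ∀ t ∈ Ico 0 T, ∀ x, 0 < sg x → √(sg x) < ρ₀ →
      |circ (u t) x| ≤ C * Real.exp (κ * b t) * Real.log (1 / √(sg x)) ^ (-κ) :=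
  logIn hν h hκ hρ hρ1 hK hb0 hbc hb hB hM hcond

end Pool.Agent.Results.MP_09540e_an.LogarithmicInflow
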