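import Pool.Agent.H946_AX.L4

/-!
# Axisymmetric flows with swirl: the circulation at the scale of the largest velocity

The circulation `Γ = ρ u_θ` of an axisymmetric solution of the Navier-Stokes equations satisfies
`∂ₜ Γ + u_ρ ∂_ρ Γ + u_z ∂_z Γ = ν (∂_ρ² - (1 / ρ) ∂_ρ + ∂_z²) Γ`. If `-ρ u_ρ = N ν` with a constant
`N` then the radial part of the associated diffusion is a Bessel process of dimension `N`, which
reaches every neighbourhood of the axis if `N ≤ 2` and escapes with positive probability if `N > 2`.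
The theorem says that the circulation near the axis is small at the scale `ℓ = ν / sup |u|` if the
inflow is at most `(2 + 1 / log (ρ / ℓ)) ν / ρ` at the distances `ρ > R ℓ`, at the points where `|Γ|`
is not small, `R` being arbitrary. There is no condition on the axial velocity, on the outflow, or
on the inflow at the distances `ρ ≤ R ℓ`.

Proof: comparison with a barrier, the maximum principle for `Γ` of the starting files. The barrier
is the minimum of `1` and of the sum of a Lyapunov function (`1 - exp (-a ρ²)` with large `a` near the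
axis, glued with a concave kink to `log log ρ²`) and of a strict supersolution
`exp (-λ t) (1 - exp (-b ρ²))`; near the axis `|Γ| ≤ δ` because `u` is bounded.

`V = Fin 3 → ℝ` with the maximum norm. See the claim file for the definitions.
-/

open MeasureTheory Set Metric Filter Topology
open scoped ContDiff

namespace Pool.Agent.Results.MP_09540e_an.RecurrentInflow

open H459R3.NS W221.NS Pool.Agent.TH305.AX Pool.Agent.H946.AX

/-- Let `Γ = circ (u t) x` be the circulation, `ρ² = sg x` the square of the distance to the axis,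
`ρ u_ρ = x₀ u₀ + x₁ u₁`. For all `M ≥ 0`, `δ, ε > 0`, `A`, `R` there is an `S > 0` such that the following
holds for all `ℓ > 0`. Let `(u, p)` be a smooth axisymmetric solution of the Navier-Stokes equations
on `[0, T) × ℝ³` with `|Γ| ≤ M` at time `0` and `|u| ≤ ν / ℓ`. If `-ρ u_ρ ≤ (2 + 1 / log (ρ / ℓ)) ν` at
all points with `ρ > R ℓ` and `|Γ| > δ`, then `|Γ| ≤ δ + ε` at all points with `ρ ≤ A ℓ` and at all
times in `[S ℓ², T)`. -/
theorem result (ν : ℝ) (hν : 0 < ν) (M δ ε A R : ℝ) (hM : 0 ≤ M) (hδ : 0 < δ) (hε : 0 < ε) :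
    ∃ S : ℝ, 0 < S ∧
      ∀ (ℓ T : ℝ) (u : ℝ → V → V) (p : ℝ → V → ℝ), 0 < ℓ → BSol ν T u p →
        (∀ x, |circ (u 0) x| ≤ M) → (∀ t ∈ Ico 0 T, ∀ x, ‖u t x‖ ≤ ν / ℓ) →
        (∀ t ∈ Ico 0 T, ∀ x, R * ℓ < √(sg x) → δ < |circ (u t) x| →
          -((2 + 1 / Real.log (√(sg x) / ℓ)) * ν) ≤ x 0 * u t x 0 + x 1 * u t x 1) →
        ∀ t ∈ Ico (S * ℓ ^ 2) T, ∀ x, √(sg x) ≤ A * ℓ → |circ (u t) x| ≤ δ + ε :=
  quantL hν A R hM hδ hε

end Pool.Agent.Results.MP_09540e_an.RecurrentInflow
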