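import Pool.Agent.Helper706_AX.J11
import Pool.Agent.Helper706_AX.J12

/-!
# Axisymmetric self-similar blow-up for small perturbations of the Navier-Stokes equations

The bilinear term of the Navier-Stokes equations on `ℝ³` is changed by a bilinear Fourier multiplier
operator `B` of order one which conserves the energy and the helicity, commutes with translations,
dilations, rotations about the third axis and reflections in the planes containing this axis, and is as
small as one likes in all critical norms. The perturbed equations preserve axial symmetry and the absence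
of swirl. For each viscosity there is a self-similar axisymmetric flow `v` without swirl, with finite
energy, constant `L³` norm and `|v(t, x)| ≤ C / |x|`, which blows up. So the theorem of Ladyzhenskaya and
Ukhovskii-Yudovich (global regularity without swirl) and the theorems of Chen, Strain, Tsai and Yau and of
Koch, Nadirashvili, Seregin and Šverák (no axisymmetric blow-up with `|v| ≤ C / r`) do not persist under
such perturbations.

There is also blow-up with swirl: one can add to `v` any solution `e^(νtΔ) w` of the heat equation with
data `w` in an infinite dimensional space which contains axisymmetric fields with swirl. The circulation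
of the sum is the circulation of `e^(νtΔ) w`.
-/

set_option autoImplicit false

open Set Filter Topology MeasureTheory
open scoped ComplexConjugate ContDiff

namespace Pool.Agent.Results.MP_09540e_an.SwirlFreePerturbation

open H706N

/-- `Pert M`: the operators `op (M i)`, `i = 0, 1, 2, …`, are bilinear Fourier multiplier operators on
divergence-free fields, with symbols of order one supported on nearly horizontal frequencies; they
conserve energy and helicity, commute with translations, dilations and rotations about the third axis,
and `|⟨op (M i)(f, g), h⟩| ≤ δ ‖f‖_α ‖g‖_β ‖h‖_γ` for large `i` in all critical Sobolev norms;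
solutions of the Navier-Stokes equations with the additional term `op (M i)(u, u)` are classical, and
they stay axisymmetric.

`Blow N ν B T u`: the solution `u` on `[0, T)` satisfies `v(t, x) = λ v(0, λ x)`,
`λ = (1 - t/T)^(-1/2)`, `v(0) ≠ 0`, and has finite energy, constant `L³` norm and the bound
`|x| |v(t, x)| ≤ C`; all derivatives of `v(0)` are `O(|x|^(-N))`; it is unique and maximal. -/
theorem result :
    ∃ M : ℕ → E → E → W → W → W, Pert M ∧
      (∀ i g h, op (M i) (mir g) (mir h) = mir (op (M i) g h)) ∧
      (∀ i ν T u, 0 ≤ ν → Sol ν (op (M i)) T u → (∀ θ, rot θ (u 0) = u 0) → mir (u 0) = u 0 →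
        ∀ t ∈ Ico 0 T, SwirlFree (vel (u t))) ∧
      (∀ (i : ℕ) (ν : ℝ), 0 < ν → ∃ (T : ℝ) (u : ℝ → E → W), Blow (i + 4) ν (op (M i)) T u ∧
        vel (u 0) 0 ≠ 0 ∧ (∀ t ∈ Ico 0 T, SwirlFree (vel (u t))) ∧
        ∀ s, Adm s → Between (1 / (i + 2)) (1 / (i + 3)) s →
          Sol ν (op (M i)) T (fun t => u t + heat ν t s) ∧
          (∀ t ∈ Ico 0 T, ∀ x, vel (u t + heat ν t s) x = vel (u t) x + vel (heat ν t s) x ∧
            circ (vel (u t + heat ν t s)) x = circ (vel (heat ν t s)) x) ∧
          ((∀ φ, rot φ s = s) → ∀ t ∈ Ico 0 T, Axi (vel (u t + heat ν t s))) ∧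
          ∀ T' w, Sol ν (op (M i)) T' w → w 0 = u 0 + s →
            T' ≤ T ∧ ∀ t ∈ Ico 0 T', vel (w t) = vel (u t + heat ν t s)) ∧
      ∀ i : ℕ, ∃ s, Adm s ∧ Between (1 / (i + 2)) (1 / (i + 3)) s ∧ (∀ φ, rot φ s = s) ∧
        ∃ x, circ (vel s) x ≠ 0 := by
  obtain ⟨M, h1, h2, h3, h4⟩ := pert_K
  refine ⟨M, h1, h2, h3, h4, fun i => ?_⟩
  have a1 : (0 : ℝ) < 1 / (i + 2) := by positivity
  have a2 : (0 : ℝ) < 1 / (i + 3) := by positivity
  have a3 : (1 : ℝ) / (i + 3) < 1 / (i + 2) :=
    one_div_lt_one_div_of_lt (by positivity) (by linarith)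
  have a4 : (1 : ℝ) / (i + 2) < 1 := by
    rw [div_lt_one (by positivity)]
    have : (0 : ℝ) ≤ i := Nat.cast_nonneg i
    linarith
  exact ⟨sw (1 / (i + 2)) (1 / (i + 3)), sw_adm a1 a4, sw_between a1,
    fun φ => sw_rot _ _ φ, sw_circ a2.le a3 a4⟩

end Pool.Agent.Results.MP_09540e_an.SwirlFreePerturbation
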